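import Mathlib
import Pool.Agent.W601.SQ.Stm

set_option autoImplicit false
open scoped Classical Cardinal
open Filter Topology

namespace Pool.Agent.W469.SQ.Fin

open Pool.Agent.W601.SQ

theorem fin : S_GOOD → S_DEN → S_ZD → S_CLO → S_UNC → S_REF → S_FIN := by
  intro hG hD hZ hC hU hR
  obtain ⟨θ, hθ⟩ := hG
  obtain ⟨h1, h2, h3, h4⟩ := hD θ hθ
  exact ⟨GG θ, h1, h2, hZ (GG θ) h1 h4, hC θ hθ, hU θ hθ, hR θ hθ⟩

end Pool.Agent.W469.SQ.Fin
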