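import Mathlib
import Pool.Agent.W601.SQ.Stm

set_option autoImplicit false
open scoped Classical Cardinal
open Filter Topology

namespace Pool.Agent.W469.SQ.Quo

open Pool.Agent.W601.SQ

/-- A subgroup of a compact topological abelian group is precompact. -/
theorem precGen {X : Type*} [CommGroup X] [TopologicalSpace X] [IsTopologicalGroup X]
    [CompactSpace X] (G : Subgroup X) :
    ∀ U ∈ 𝓝 (1 : ↥G), ∃ F : Finset ↥G, ∀ g : ↥G, ∃ f ∈ F, ∃ u ∈ U, g = f * u := by
  intro U hU
  rw [nhds_subtype_eq_comap, Filter.mem_comap] at hU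
  obtain ⟨V, hV, hVU⟩ := hU
  have hsub : ∃ W ∈ 𝓝 (1 : X), ∀ a ∈ W, ∀ b ∈ W, a / b ∈ V := by
    have hc : Tendsto (fun p : X × X => p.1 / p.2) (𝓝 ((1 : X), (1 : X))) (𝓝 (1 : X)) := by
      have h := (continuous_fst.div' continuous_snd : Continuous (fun p : X × X => p.1 / p.2)).tendsto
        ((1 : X), (1 : X))
      have e : (Prod.fst / Prod.snd : X × X → X) ((1 : X), (1 : X)) = 1 := div_one 1
      rw [e] at h
      exact h
    have h2 := hc hV
    rw [Filter.mem_map, nhds_prod_eq] at h2
    obtain ⟨A, hA, B, hB, hAB⟩ := Filter.mem_prod_iff.1 h2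
    refine ⟨A ∩ B, Filter.inter_mem hA hB, fun a ha b hb => ?_⟩
    exact hAB (Set.mk_mem_prod ha.1 hb.2)
  obtain ⟨W, hW, hWV⟩ := hsub
  have hnh : ∀ x : X, (fun y : X => y / x) ⁻¹' W ∈ 𝓝 x := by
    intro x
    have hc : Continuous (fun y : X => y / x) := continuous_id.div' continuous_const
    apply hc.continuousAt.preimage_mem_nhds
    simpa using hW
  obtain ⟨T, -, hT⟩ := (isCompact_univ (X := X)).elim_nhds_subcover
    (fun x => (fun y : X => y / x) ⁻¹' W) (fun x _ => hnh x)
  let ch : X → ↥G := fun x => if h : ∃ f : ↥G, (f : X) / x ∈ W then h.choose else 1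
  refine ⟨T.image ch, fun g => ?_⟩
  have hg : (g : X) ∈ ⋃ x ∈ T, (fun y : X => y / x) ⁻¹' W := hT (Set.mem_univ _)
  rw [Set.mem_iUnion₂] at hg
  obtain ⟨x, hxT, hx⟩ := hg
  have hx' : (g : X) / x ∈ W := hx
  have hex : ∃ f : ↥G, (f : X) / x ∈ W := ⟨g, hx'⟩
  have hch : ((ch x : ↥G) : X) / x ∈ W := by
    have : ch x = hex.choose := dif_pos hex
    rw [this]
    exact hex.choose_spec
  refine ⟨ch x, Finset.mem_image_of_mem _ hxT, g / ch x, hVU ?_, by simp⟩
  have h3 := hWV _ hx' _ hch
  rw [Set.mem_preimage]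
  have : ((g / ch x : ↥G) : X) = ((g : X) / x) / ((ch x : X) / x) := by
    rw [Subgroup.coe_div]; simp
  rw [this]
  exact h3

/-- Countable sets generate countable subgroups. -/
theorem cntCl {G : Type*} [Group G] (S : Set G) (hS : S.Countable) :
    ((Subgroup.closure S : Subgroup G) : Set G).Countable := by
  have : Countable ↥S := hS.to_subtype
  have h := FreeGroup.range_lift_eq_closure (f := (Subtype.val : ↥S → G))
  rw [Subtype.range_coe] at h
  rw [← h, MonoidHom.coe_range]
  exact Set.countable_range _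

/-- No separable quotients. -/
theorem noSep {G : Type*} [CommGroup G] [TopologicalSpace G] [IsTopologicalGroup G]
    (hG : ¬ (Set.univ : Set G).Countable)
    (hC : ∀ K : Subgroup G, (K : Set G).Countable → IsClosed (K : Set G))
    (hU : ∀ K : Subgroup G, ¬ (K : Set G).Countable → Dense (K : Set G))
    (N : Subgroup G) (hN : IsClosed (N : Set G)) (hNt : N ≠ ⊤) :
    ¬ TopologicalSpace.SeparableSpace (G ⧸ N) := by
  intro hsep
  have hNc : (N : Set G).Countable := by
    by_contra h
    have hd := hU N h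
    apply hNt
    rw [← SetLike.coe_set_eq, Subgroup.coe_top]
    rw [← hN.closure_eq]
    exact hd.closure_eq
  obtain ⟨D, hDc, hDd⟩ := hsep.exists_countable_dense
  -- representatives
  let R : Set G := (fun q : G ⧸ N => q.out) '' D
  have hRc : R.Countable := hDc.image _
  let C : Subgroup G := Subgroup.closure (R ∪ (N : Set G))
  have hCc : (C : Set G).Countable := by
    have h1 : (R ∪ (N : Set G)).Countable := hRc.union hNc
    exact cntCl _ h1
  have hCcl : IsClosed (C : Set G) := hC C hCc
  have hNC : N ≤ C := fun x hx => Subgroup.subset_closure (Or.inr hx)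
  -- image of C is closed
  have hpre : (QuotientGroup.mk : G → G ⧸ N) ⁻¹' ((QuotientGroup.mk : G → G ⧸ N) '' (C : Set G))
      = (C : Set G) := by
    ext x
    constructor
    · rintro ⟨y, hy, hxy⟩
      rw [QuotientGroup.eq] at hxy
      have : x = y * (y⁻¹ * x) := by group
      rw [this]
      exact C.mul_mem hy (hNC hxy)
    · intro hx
      exact ⟨x, hx, rfl⟩
  have hcl : IsClosed ((QuotientGroup.mk : G → G ⧸ N) '' (C : Set G)) := by
    rw [← (QuotientGroup.isQuotientMap_mk N).isClosed_preimage, hpre]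
    exact hCcl
  have hsub : D ⊆ (QuotientGroup.mk : G → G ⧸ N) '' (C : Set G) := by
    intro q hq
    refine ⟨q.out, Subgroup.subset_closure (Or.inl ⟨q, hq, rfl⟩), ?_⟩
    exact QuotientGroup.out_eq' q
  have hall : ((QuotientGroup.mk : G → G ⧸ N) '' (C : Set G)) = Set.univ := by
    have := (hDd.mono hsub).closure_eq
    rw [hcl.closure_eq] at this
    exact this
  apply hG
  have : (C : Set G) = Set.univ := by
    rw [← hpre, hall, Set.preimage_univ]
  rw [← this]
  exact hCc

theorem quo : S_FIN → S_QUO := by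
  rintro ⟨H, -, hunc, -, hC, hU, hR⟩
  have hun : ¬ (Set.univ : Set ↥H).Countable := by
    intro h
    apply hunc
    have h2 := h.image (Subtype.val : ↥H → (ℝ → Circle))
    rw [Set.image_univ, Subtype.range_coe] at h2
    exact h2
  refine ⟨↥H, inferInstance, inferInstance, inferInstance, inferInstance, ?_, hR, precGen H,
    fun N hN hNt => noSep hun hC hU N hN hNt⟩
  by_contra hfin
  rw [not_infinite_iff_finite] at hfin
  exact hun (Set.finite_univ.countable)

end Pool.Agent.W469.SQ.Quo
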